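import Pool.Agent.Q325.PcMain

/-!
# MP_6e7106_pr: clusters of large diameter need not give a giant cluster with high probability

`Prob G p A` is the probability of the event `A` under Bernoulli bond percolation with parameter `p`
on the finite graph `G` (a finite sum over the configurations, which are the maps from the edges of
`G` to the two truth values). `InLarge G v` is the event that the vertex `v` lies in an open
component containing two vertices whose distance in `G` is at least half of the diameter of `G`,
`HasGiant G C` is the event that some open component has at least `C * |V|` vertices, and
`TransSeq d V G` says that the `G n` are connected `d`-regular vertex-transitive finite graphs whose
numbers of vertices tend to infinity. `Question` is the statement asked about.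

The answer is negative. The graphs are the thin tori (a cycle of length `n * 3 ^ k` times a cycle of
length `3 ^ k`), where `n` is the last length (in blocks of `3 ^ k` columns) such that an open path
crosses the cylinder of this length with probability at least `3 / 4`. A hierarchical construction of
good blocks shows that each vertex is in a cluster that goes around the torus with probability at
least one half, and that with probability tending to one any two open crossings of `k + 1`
consecutive blocks are connected. Hence, were it very unlikely that a fixed fraction of the length is
not crossed, then the slightly longer cylinder would be crossed with probability at least `3 / 4`, a
contradiction; so any fixed number of disjoint fractions of the torus are blocked at the same time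
with a probability bounded below, and then all clusters are small.
-/

set_option autoImplicit false

namespace Pool.Agent.Results.MP_6e7106_pr.ThinTori

open Filter Pool.Agent.Q325.Pc

/-- There are a sequence of finite connected 4-regular transitive graphs and `p < 1` such that each
vertex is in a component of diameter at least half of the diameter of the graph with probability
larger than `1 / 4`, and such that for each `C > 0` the probability of a component with at least
`C * |V|` vertices is bounded away from one. In particular the statement asked about is false. -/
theorem result :
    (∃ (V : ℕ → Type) (_ : ∀ n, Fintype (V n)) (G : ∀ n, SimpleGraph (V n)),
      TransSeq 4 V G ∧ ∃ p : ℝ, 0 < p ∧ p < 1 ∧
        (∀ n v, 1 / 4 < Prob (G n) p (InLarge (G n) v)) ∧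
        ∀ C : ℝ, 0 < C → ∃ ε : ℝ, 0 < ε ∧
          ∀ᶠ n in atTop, Prob (G n) p (HasGiant (G n) C) ≤ 1 - ε) ∧
    ¬ Question := main

end Pool.Agent.Results.MP_6e7106_pr.ThinTori
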